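import Pool.Agent.P8H47.EC.Stm

/-! # Project EC: the elements of a minimal compatible subgroup -/

set_option autoImplicit false

namespace Pool.Agent.P8H47.EC

open Pool.Agent.Y920.EP (pwG)

variable {F : Type} [Field F]

/-- a prime ideal of a valuation ring, as a subset of the field -/
structure PI (O : ValuationSubring F) (J : Set F) : Prop where
  sub : ∀ x ∈ J, x ∈ O
  zero : (0 : F) ∈ J
  mul : ∀ x ∈ J, ∀ b ∈ O, x * b ∈ J
  one : (1 : F) ∉ J
  prime : ∀ x ∈ O, ∀ y ∈ O, x * y ∈ J → x ∈ J ∨ y ∈ J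

/-- the localization at a prime ideal -/
def loc (O : ValuationSubring F) (J : Set F) (hJ : PI O J) : Subring F where
  carrier := {x | ∃ s ∈ O, s ∉ J ∧ s * x ∈ O}
  mul_mem' := by
    rintro a b ⟨s, hs, hs', h1⟩ ⟨t, ht, ht', h2⟩
    refine ⟨s * t, O.mul_mem _ _ hs ht, fun h => (hJ.prime s hs t ht h).elim hs' ht', ?_⟩
    rw [show s * t * (a * b) = s * a * (t * b) by ring]
    exact O.mul_mem _ _ h1 h2
  one_mem' := ⟨1, O.one_mem, hJ.one, by rw [mul_one]; exact O.one_mem⟩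
  add_mem' := by
    rintro a b ⟨s, hs, hs', h1⟩ ⟨t, ht, ht', h2⟩
    refine ⟨s * t, O.mul_mem _ _ hs ht, fun h => (hJ.prime s hs t ht h).elim hs' ht', ?_⟩
    rw [show s * t * (a + b) = t * (s * a) + s * (t * b) by ring]
    exact O.add_mem _ _ (O.mul_mem _ _ ht h1) (O.mul_mem _ _ hs h2)
  zero_mem' := ⟨1, O.one_mem, hJ.one, by rw [mul_zero]; exact O.zero_mem⟩
  neg_mem' := by
    rintro a ⟨s, hs, hs', h1⟩
    exact ⟨s, hs, hs', by rw [mul_neg]; exact O.neg_mem _ h1⟩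

theorem loc_le (O : ValuationSubring F) (J : Set F) (hJ : PI O J) : O.toSubring ≤ loc O J hJ := by
  intro x hx
  exact ⟨1, O.one_mem, hJ.one, by rw [one_mul]; exact hx⟩

/-- the localization at a prime ideal, a valuation ring -/
def Loc (O : ValuationSubring F) (J : Set F) (hJ : PI O J) : ValuationSubring F :=
  ValuationSubring.ofLE O (loc O J hJ) (loc_le O J hJ)

theorem mem_Loc {O : ValuationSubring F} {J : Set F} {hJ : PI O J} {x : F} :
    x ∈ Loc O J hJ ↔ ∃ s ∈ O, s ∉ J ∧ s * x ∈ O := Iff.rfl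

theorem Loc_max {O : ValuationSubring F} {J : Set F} {hJ : PI O J} {x : F}
    (hx' : x⁻¹ ∉ Loc O J hJ) : x ∈ J := by
  have hx'' : x⁻¹ ∉ O := fun h => hx' (loc_le O J hJ h)
  have hxO : x ∈ O := (O.mem_or_inv_mem x).resolve_right hx''
  by_contra hc
  apply hx'
  rw [mem_Loc]
  refine ⟨x, hxO, hc, ?_⟩
  by_cases h0 : x = 0
  · exact absurd (h0 ▸ hJ.zero) hc
  · rw [mul_inv_cancel₀ h0]
    exact O.one_mem

theorem Loc_unit {O : ValuationSubring F} {J : Set F} {hJ : PI O J} {u : F} (h0 : u ≠ 0)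
    (hu' : u⁻¹ ∈ Loc O J hJ) : u ∉ J := by
  intro h
  rw [mem_Loc] at hu'
  obtain ⟨s, hs, hs', h1⟩ := hu'
  apply hs'
  have h2 := hJ.mul u h _ h1
  rwa [show u * (s * u⁻¹) = s by field_simp] at h2

/-- the elements `y` of `O` with `1 + y O ⊆ T` -/
def II (O : ValuationSubring F) (T : Subgroup Fˣ) : Set F :=
  {y | y ∈ O ∧ ∀ b ∈ O, ∃ t ∈ T, (t : F) = 1 + y * b}

theorem II_mul {O : ValuationSubring F} {T : Subgroup Fˣ} {y b : F} (hy : y ∈ II O T)
    (hb : b ∈ O) : y * b ∈ II O T := by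
  refine ⟨O.mul_mem _ _ hy.1 hb, fun c hc => ?_⟩
  rw [mul_assoc]
  exact hy.2 _ (O.mul_mem _ _ hb hc)

theorem II_inv {O : ValuationSubring F} {T : Subgroup Fˣ} {y : F} (hy : y ∈ II O T)
    (h0 : y ≠ 0) : y⁻¹ ∉ O := by
  intro h
  obtain ⟨t, ht, e⟩ := hy.2 (-y⁻¹) (O.neg_mem _ h)
  rw [mul_neg, mul_inv_cancel₀ h0, add_neg_cancel] at e
  exact t.ne_zero e

/-- a unit of the form `1 + w` -/
theorem unit_one_add {O : ValuationSubring F} {w : F} (hw : w ∈ O) (hw' : w = 0 ∨ w⁻¹ ∉ O) :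
    ∃ u : Fˣ, (u : F) = 1 + w ∧ (u : F) ∈ O ∧ ((u⁻¹ : Fˣ) : F) ∈ O := by
  have h0 : (1 : F) + w ≠ 0 := by
    intro h
    have e : w = -1 := by linear_combination h
    rcases hw' with h1 | h1
    · rw [h1] at e
      exact one_ne_zero (by linear_combination e : (1 : F) = 0)
    · apply h1
      rw [e, inv_neg, inv_one]
      exact O.neg_mem _ O.one_mem
  refine ⟨Units.mk0 _ h0, rfl, O.add_mem _ _ O.one_mem hw, ?_⟩
  rw [Units.val_inv_eq_inv_val, Units.val_mk0]
  rcases O.mem_or_inv_mem (1 + w)⁻¹ with h | h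
  · exact h
  · -- the inverse of 1 + w is in O, otherwise 1 is in m
    by_contra hc
    have h1 : O.valuation (1 + w) = 1 := by
      have h2 : O.valuation w < 1 := by
        rcases hw' with h1 | h1
        · rw [h1, map_zero]; exact zero_lt_one
        · rw [← not_le]
          intro h3
          apply h1
          by_cases hw0 : w = 0
          · rw [hw0, inv_zero]; exact O.zero_mem
          rw [← ValuationSubring.valuation_le_one_iff, map_inv₀]
          have h4 : O.valuation w = 1 :=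
            le_antisymm ((ValuationSubring.valuation_le_one_iff _ _).2 hw) h3
          rw [h4, inv_one]
      exact O.valuation.map_one_add_of_lt h2
    apply hc
    rw [← ValuationSubring.valuation_le_one_iff, map_inv₀, h1, inv_one]

theorem pow_expand {O : ValuationSubring F} {w : F} (hw : w ∈ O) (n : ℕ) :
    ∃ c ∈ O, (1 + w) ^ n = 1 + n * w + w ^ 2 * c := by
  induction n with
  | zero => exact ⟨0, O.zero_mem, by simp⟩
  | succ n ih =>
    obtain ⟨c, hc, e⟩ := ih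
    refine ⟨n + c + w * c, ?_, ?_⟩
    · exact O.add_mem _ _ (O.add_mem _ _ (natCast_mem O n) hc) (O.mul_mem _ _ hw hc)
    · rw [pow_succ, e]
      push_cast
      ring

theorem II_sq {O : ValuationSubring F} {T : Subgroup Fˣ} {p : ℕ} (hpF : (p : F) ≠ 0)
    (hpO : (p : F)⁻¹ ∈ O) (hT : pwG F p ≤ T) {y : F} (hy : y ∈ O) (h : y * y ∈ II O T) :
    y ∈ II O T := by
  refine ⟨hy, fun b hb => ?_⟩
  by_cases hy0 : y = 0
  · exact ⟨1, one_mem _, by rw [hy0]; simp⟩
  have hy' : y⁻¹ ∉ O := by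
    intro h1
    apply II_inv h (mul_ne_zero hy0 hy0)
    rw [mul_inv]
    exact O.mul_mem _ _ h1 h1
  -- w = y b / p
  obtain ⟨w, hw⟩ : ∃ w : F, w = y * b * (p : F)⁻¹ := ⟨_, rfl⟩
  have hwO : w ∈ O := by rw [hw]; exact O.mul_mem _ _ (O.mul_mem _ _ hy hb) hpO
  have hw' : w = 0 ∨ w⁻¹ ∉ O := by
    by_cases hw0 : w = 0
    · exact Or.inl hw0
    · right
      intro h1
      apply hy'
      have h2 : y⁻¹ = b * (p : F)⁻¹ * w⁻¹ := by
        rw [hw]
        have hb0 : b ≠ 0 := by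
          rintro rfl
          exact hw0 (by rw [hw]; simp)
        field_simp
      rw [h2]
      exact O.mul_mem _ _ (O.mul_mem _ _ hb hpO) h1
  obtain ⟨u, hu, hu1, hu2⟩ := unit_one_add hwO hw'
  obtain ⟨c, hc, e⟩ := pow_expand hwO p
  have hup : (((u⁻¹ : Fˣ) : F)) ^ p ∈ O := pow_mem hu2 p
  obtain ⟨t, ht, e'⟩ := h.2 (-(b * b * (p : F)⁻¹ * (p : F)⁻¹ * c * ((u⁻¹ : Fˣ) : F) ^ p)) (by
    refine O.neg_mem _ (O.mul_mem _ _ (O.mul_mem _ _ (O.mul_mem _ _ (O.mul_mem _ _
      (O.mul_mem _ _ hb hb) hpO) hpO) hc) hup))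
  refine ⟨u ^ p * t, mul_mem (hT ⟨u, rfl⟩) ht, ?_⟩
  have hu0 : (u : F) ≠ 0 := u.ne_zero
  have h3 : (u : F) ^ p * ((u⁻¹ : Fˣ) : F) ^ p = 1 := by
    rw [← mul_pow, ← Units.val_mul, mul_inv_cancel, Units.val_one, one_pow]
  have h4 : (u : F) ^ p = 1 + y * b + y ^ 2 * (b * b * (p : F)⁻¹ * (p : F)⁻¹ * c) := by
    rw [hu, e, hw]
    have : (p : F) * (y * b * (p : F)⁻¹) = y * b := by
      field_simp
    rw [this]
    ring
  rw [Units.val_mul, e', Units.val_pow_eq_pow_val]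
  linear_combination h4 - y ^ 2 * (b * b * (p : F)⁻¹ * (p : F)⁻¹ * c) * h3

theorem dvd_or {O : ValuationSubring F} {x y : F} (hx0 : x ≠ 0) (hy0 : y ≠ 0) :
    (∃ b ∈ O, y = x * b) ∨ ∃ b ∈ O, x = y * b := by
  rcases O.mem_or_inv_mem (y / x) with h | h
  · left
    exact ⟨_, h, by field_simp⟩
  · right
    refine ⟨_, h, ?_⟩
    rw [inv_div]
    field_simp

theorem II_PI {O : ValuationSubring F} {T : Subgroup Fˣ} {p : ℕ} (hpF : (p : F) ≠ 0)
    (hpO : (p : F)⁻¹ ∈ O) (hT : pwG F p ≤ T) : PI O (II O T) := by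
  refine ⟨fun x hx => hx.1, ⟨O.zero_mem, fun b _ => ⟨1, one_mem _, by simp⟩⟩,
    fun x hx b hb => II_mul hx hb, ?_, ?_⟩
  · intro h
    exact II_inv h one_ne_zero (by rw [inv_one]; exact O.one_mem)
  · intro x hx y hy hxy
    by_cases hx0 : x = 0
    · left
      rw [hx0]
      exact ⟨O.zero_mem, fun b _ => ⟨1, one_mem _, by simp⟩⟩
    by_cases hy0 : y = 0
    · right
      rw [hy0]
      exact ⟨O.zero_mem, fun b _ => ⟨1, one_mem _, by simp⟩⟩
    rcases dvd_or (O := O) hx0 hy0 with ⟨b, hb, e⟩ | ⟨b, hb, e⟩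
    · right
      apply II_sq hpF hpO hT hy
      have : y * y = x * y * b := by rw [e]; ring
      rw [this]
      exact II_mul hxy hb
    · left
      apply II_sq hpF hpO hT hx
      have : x * x = x * y * b := by
        rw [mul_assoc, ← e]
      rw [this]
      exact II_mul hxy hb

/-- there are finitely many groups between `U` and `T` -/
theorem finite_between {G : Type} [CommGroup G] {U T : Subgroup G} (h : U.relIndex T ≠ 0) :
    {T' : Subgroup G | U ≤ T' ∧ T' ≤ T}.Finite := by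
  have hfin : Finite (T ⧸ U.subgroupOf T) := by
    apply Nat.finite_of_card_ne_zero
    exact h
  have : Finite (Subgroup (T ⧸ U.subgroupOf T)) := inferInstance
  refine Set.Finite.of_finite_image (f := fun T' : Subgroup G =>
    (T'.subgroupOf T).map (QuotientGroup.mk' (U.subgroupOf T))) (Set.toFinite _) ?_
  rintro A ⟨hA1, hA2⟩ B ⟨hB1, hB2⟩ hAB
  have key : ∀ A B : Subgroup G, U ≤ B → A ≤ T →
      (A.subgroupOf T).map (QuotientGroup.mk' (U.subgroupOf T)) =
        (B.subgroupOf T).map (QuotientGroup.mk' (U.subgroupOf T)) → A ≤ B := by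
    intro A B hB hA hAB x hx
    have h1 : (QuotientGroup.mk' (U.subgroupOf T)) ⟨x, hA hx⟩ ∈
        (B.subgroupOf T).map (QuotientGroup.mk' (U.subgroupOf T)) := by
      rw [← hAB]
      exact ⟨⟨x, hA hx⟩, hx, rfl⟩
    obtain ⟨y, hy, e⟩ := h1
    have h2 : y⁻¹ * ⟨x, hA hx⟩ ∈ U.subgroupOf T := by
      rw [QuotientGroup.mk'_apply, QuotientGroup.mk'_apply, QuotientGroup.eq] at e
      exact e
    have h3 : (y : G)⁻¹ * x ∈ U := h2
    have h4 := mul_mem (show (y : G) ∈ B from hy) (hB h3)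
    rwa [mul_inv_cancel_left] at h4
  exact le_antisymm (key A B hB1 hA2 hAB) (key B A hA1 hB2 hAB.symm)

theorem II_total {O : ValuationSubring F} {T T' : Subgroup Fˣ} (h : ¬ II O T' ⊆ II O T) :
    II O T ⊆ II O T' := by
  obtain ⟨y, hy, hy'⟩ := Set.not_subset.1 h
  intro z hz
  by_cases hz0 : z = 0
  · rw [hz0]
    exact ⟨O.zero_mem, fun b _ => ⟨1, one_mem _, by simp⟩⟩
  by_cases hy0 : y = 0
  · exfalso
    apply hy'
    rw [hy0]
    exact ⟨O.zero_mem, fun b _ => ⟨1, one_mem _, by simp⟩⟩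
  rcases dvd_or (O := O) hy0 hz0 with ⟨b, hb, e⟩ | ⟨b, hb, e⟩
  · rw [e]; exact II_mul hy hb
  · exfalso
    apply hy'
    rw [e]
    exact II_mul hz hb

/-- elements of a class of positive value outside a prime ideal -/
theorem exists_mult {O : ValuationSubring F} {J : Set F} (hJ : PI O J) {p : ℕ} (hp : 2 ≤ p)
    {c₀ : F} (hc : c₀ ∈ O) (hc' : c₀⁻¹ ∉ O) (hcJ : c₀ ∉ J) (u : Fˣ) (hu : (u : F) ∉ J)
    (hu' : ((u⁻¹ : Fˣ) : F) ∉ J) :
    ∃ w : Fˣ, ((u * w ^ p : Fˣ) : F) ∈ O ∧ (((u * w ^ p)⁻¹ : Fˣ) : F) ∉ O ∧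
      ((u * w ^ p : Fˣ) : F) ∉ J := by
  have hc0 : c₀ ≠ 0 := fun h => hcJ (h ▸ hJ.zero)
  have hpow : ∀ n : ℕ, ∀ a ∈ O, a ∉ J → a ^ n ∈ O ∧ a ^ n ∉ J := by
    intro n a ha ha'
    induction n with
    | zero => rw [pow_zero]; exact ⟨O.one_mem, hJ.one⟩
    | succ n ih =>
      rw [pow_succ]
      exact ⟨O.mul_mem _ _ ih.1 ha, fun h => (hJ.prime _ ih.1 _ ha h).elim ih.2 ha'⟩
  obtain ⟨q, hq⟩ : ∃ q, p = q + 1 := ⟨p - 1, by omega⟩
  have hq1 : 1 ≤ q := by omega
  rcases O.mem_or_inv_mem (u : F) with h | h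
  · refine ⟨Units.mk0 c₀ hc0, ?_, ?_, ?_⟩
    · rw [Units.val_mul, Units.val_pow_eq_pow_val, Units.val_mk0]
      exact O.mul_mem _ _ h (hpow p c₀ hc hcJ).1
    · rw [Units.val_inv_eq_inv_val, Units.val_mul, Units.val_pow_eq_pow_val, Units.val_mk0]
      intro h1
      apply hc'
      have h2 : c₀⁻¹ = u * c₀ ^ q * ((u : F) * c₀ ^ p)⁻¹ := by
        rw [hq, pow_succ]
        have := u.ne_zero
        field_simp
      rw [h2]
      exact O.mul_mem _ _ (O.mul_mem _ _ h (hpow q c₀ hc hcJ).1) h1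
    · rw [Units.val_mul, Units.val_pow_eq_pow_val, Units.val_mk0]
      intro h1
      exact (hJ.prime _ h _ (hpow p c₀ hc hcJ).1 h1).elim hu (hpow p c₀ hc hcJ).2
  · rw [← Units.val_inv_eq_inv_val] at h
    have e : ((u * (u⁻¹ * Units.mk0 c₀ hc0) ^ p : Fˣ) : F) = ((u⁻¹ : Fˣ) : F) ^ q * c₀ ^ p := by
      rw [hq, mul_pow, pow_succ u⁻¹ q]
      simp only [Units.val_mul, Units.val_pow_eq_pow_val, Units.val_mk0]
      have h1 : (u : F) * ((u⁻¹ : Fˣ) : F) = 1 := by rw [← Units.val_mul, mul_inv_cancel, Units.val_one]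
      linear_combination ((u⁻¹ : Fˣ) : F) ^ q * c₀ ^ (q + 1) * h1
    refine ⟨u⁻¹ * Units.mk0 c₀ hc0, ?_, ?_, ?_⟩
    · rw [e]
      exact O.mul_mem _ _ (hpow q _ h hu').1 (hpow p c₀ hc hcJ).1
    · rw [Units.val_inv_eq_inv_val, e]
      intro h1
      apply hc'
      have h2 : c₀⁻¹ = ((u⁻¹ : Fˣ) : F) ^ q * c₀ ^ q * (((u⁻¹ : Fˣ) : F) ^ q * c₀ ^ p)⁻¹ := by
        rw [hq, pow_succ c₀]
        have := (u⁻¹ : Fˣ).ne_zero
        field_simp
      rw [h2]
      exact O.mul_mem _ _ (O.mul_mem _ _ (hpow q _ h hu').1 (hpow q c₀ hc hcJ).1) h1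
    · rw [e]
      intro h1
      exact (hJ.prime _ (hpow q _ h hu').1 _ (hpow p c₀ hc hcJ).1 h1).elim (hpow q _ h hu').2
        (hpow p c₀ hc hcJ).2

/-- the group `1 + y² O` for `y` in the maximal ideal -/
def Gy (O : ValuationSubring F) (y : F) (hy : y ∈ O) (hy' : y⁻¹ ∉ O) : Subgroup Fˣ where
  carrier := {g | ∃ b ∈ O, (g : F) = 1 + y * y * b}
  mul_mem' := by
    rintro g g' ⟨b, hb, e⟩ ⟨b', hb', e'⟩
    refine ⟨b + b' + y * y * b * b', ?_, ?_⟩
    · exact O.add_mem _ _ (O.add_mem _ _ hb hb')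
        (O.mul_mem _ _ (O.mul_mem _ _ (O.mul_mem _ _ hy hy) hb) hb')
    · rw [Units.val_mul, e, e']; ring
  one_mem' := ⟨0, O.zero_mem, by simp⟩
  inv_mem' := by
    rintro g ⟨b, hb, e⟩
    have hw : y * y * b ∈ O := O.mul_mem _ _ (O.mul_mem _ _ hy hy) hb
    have hw' : y * y * b = 0 ∨ (y * y * b)⁻¹ ∉ O := by
      by_cases h0 : y * y * b = 0
      · exact Or.inl h0
      · right
        intro h1
        apply hy'
        have hy0 : y ≠ 0 := by rintro rfl; exact h0 (by simp)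
        have hb0 : b ≠ 0 := by rintro rfl; exact h0 (by simp)
        have h2 : y⁻¹ = y * b * (y * y * b)⁻¹ := by field_simp
        rw [h2]
        exact O.mul_mem _ _ (O.mul_mem _ _ hy hb) h1
    obtain ⟨u, hu, -, hu2⟩ := unit_one_add hw hw'
    have hgu : g = u := Units.ext (by rw [e, hu])
    rw [← hgu] at hu2
    refine ⟨-(b * ((g⁻¹ : Fˣ) : F)), O.neg_mem _ (O.mul_mem _ _ hb hu2), ?_⟩
    have h3 : (g : F) * ((g⁻¹ : Fˣ) : F) = 1 := by
      rw [← Units.val_mul, mul_inv_cancel, Units.val_one]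
    rw [e] at h3
    linear_combination h3

theorem t_A : S_A := by
  intro F _ p hp hp2 hpF T hfin hT t ht x
  obtain ⟨O, hO⟩ := hT.ex
  have hpO := hO.inv_mem
  have hOne := hO.one_add
  -- a prime ideal
  obtain ⟨J, hJ, hJ1, c₀, hc₀, hc₀', hc₀J, u, hu, hu', hxu⟩ : ∃ J : Set F, ∃ hJ : PI O J,
      (∀ T' : Subgroup Fˣ, pwG F p ≤ T' → T' < T → II O T' ⊆ J) ∧
      ∃ c₀ : F, c₀ ∈ O ∧ c₀⁻¹ ∉ O ∧ c₀ ∉ J ∧
      ∃ u : Fˣ, (u : F) ∉ J ∧ ((u⁻¹ : Fˣ) : F) ∉ J ∧ x⁻¹ * u ∈ T := by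
    by_cases hS : ∃ T' : Subgroup Fˣ, pwG F p ≤ T' ∧ T' < T
    · -- choose the largest ideal
      have hfinS : {T' : Subgroup Fˣ | pwG F p ≤ T' ∧ T' < T}.Finite :=
        (finite_between hfin).subset (fun T' h => ⟨h.1, h.2.le⟩)
      obtain ⟨T', ⟨h1, h2⟩, hmax⟩ := hfinS.exists_maximalFor (fun T' => II O T') _ hS
      have hJ : PI O (II O T') := II_PI hpF hpO h1
      refine ⟨II O T', hJ, ?_, ?_⟩
      · intro T'' h3 h4
        by_contra hc
        exact hc (hmax ⟨h3, h4⟩ (II_total hc))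
      · have hno := hT.min T' h1 h2
        obtain ⟨c₀, hc₀, hc₀', hc₀J⟩ : ∃ c₀ : F, c₀ ∈ O ∧ c₀⁻¹ ∉ O ∧ c₀ ∉ II O T' := by
          by_contra hc
          push Not at hc
          apply hno
          refine ⟨O, hpO, ?_, ?_⟩
          · intro z hz hz'
            obtain ⟨s, hs, e⟩ := (hc z hz hz').2 1 O.one_mem
            exact ⟨s, hs, by rw [e, mul_one]⟩
          · intro h3
            apply hO.ne_top
            rw [eq_top_iff, ← h3]
            exact sup_le_sup_left h2.le _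
        refine ⟨c₀, hc₀, hc₀', hc₀J, ?_⟩
        have htop : (Loc O (II O T') hJ).unitGroup ⊔ T' = ⊤ := by
          by_contra hc
          apply hno
          refine ⟨Loc O (II O T') hJ, loc_le O _ hJ hpO, ?_, hc⟩
          intro z _ hz'
          obtain ⟨s, hs, e⟩ := (Loc_max hz').2 1 O.one_mem
          exact ⟨s, hs, by rw [e, mul_one]⟩
        have hx : x ∈ (Loc O (II O T') hJ).unitGroup ⊔ T' := by rw [htop]; trivial
        obtain ⟨u, hu, τ, hτ, e⟩ := Subgroup.mem_sup.1 hx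
        have hu1 : (u : F) ∈ Loc O (II O T') hJ := by
          rw [← ValuationSubring.valuation_le_one_iff]
          exact le_of_eq hu
        have hu2 : (u : F)⁻¹ ∈ Loc O (II O T') hJ := by
          rw [← ValuationSubring.valuation_le_one_iff, map_inv₀]
          rw [show (Loc O (II O T') hJ).valuation (u : F) = 1 from hu, inv_one]
        refine ⟨u, Loc_unit u.ne_zero hu2, ?_, ?_⟩
        · refine Loc_unit (O := O) (hJ := hJ) (u⁻¹).ne_zero ?_
          rw [Units.val_inv_eq_inv_val, inv_inv]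
          exact hu1
        · rw [← e]
          have : (u * τ)⁻¹ * u = τ⁻¹ := by
            rw [mul_inv_rev, mul_assoc, inv_mul_cancel, mul_one]
          rw [this]
          exact inv_mem (h2.le hτ)
    · -- the zero ideal
      refine ⟨{0}, ⟨?_, rfl, ?_, ?_, ?_⟩, ?_, ?_⟩
      · rintro z rfl; exact O.zero_mem
      · rintro z rfl b _; simp
      · exact one_ne_zero
      · intro a _ b _ h
        exact mul_eq_zero.1 h
      · intro T' h1 h2
        exact absurd ⟨T', h1, h2⟩ hS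
      · obtain ⟨c, hc⟩ : ∃ c : Fˣ, c ∉ O.unitGroup := by
          by_contra hc
          push Not at hc
          apply hO.ne_top
          rw [eq_top_iff]
          exact fun c _ => Subgroup.mem_sup_left (hc c)
        obtain ⟨c₀, h1, h2⟩ : ∃ c₀ : Fˣ, (c₀ : F) ∈ O ∧ (c₀ : F)⁻¹ ∉ O := by
          by_contra hn
          push Not at hn
          apply hc
          rcases O.mem_or_inv_mem (c : F) with h | h
          · exact Pool.Agent.R675.TP.mem_unitGroup_of h
              (by rw [Units.val_inv_eq_inv_val]; exact hn c h)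
          · refine Pool.Agent.R675.TP.mem_unitGroup_of ?_
              (by rw [Units.val_inv_eq_inv_val]; exact h)
            have := hn c⁻¹ (by rw [Units.val_inv_eq_inv_val]; exact h)
            rwa [Units.val_inv_eq_inv_val, inv_inv] at this
        exact ⟨c₀, h1, h2, c₀.ne_zero, x, x.ne_zero, (x⁻¹).ne_zero, by
          rw [inv_mul_cancel]; exact one_mem _⟩
  obtain ⟨w, hy, hy', hyJ⟩ := exists_mult hJ hp.two_le hc₀ hc₀' hc₀J u hu hu'
  obtain ⟨y, hydef⟩ : ∃ y : Fˣ, y = u * w ^ p := ⟨_, rfl⟩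
  rw [← hydef] at hy hy' hyJ
  rw [Units.val_inv_eq_inv_val] at hy'
  have hxy : x⁻¹ * y ∈ T := by
    rw [hydef, ← mul_assoc]
    exact mul_mem hxu (hT.le ⟨w, rfl⟩)
  -- all classes of `T` are classes of `1 + y² b`
  have hG : Gy O y hy hy' ⊔ pwG F p = T := by
    have hle : Gy O y hy hy' ⊔ pwG F p ≤ T := by
      refine sup_le ?_ hT.le
      rintro g ⟨b, hb, e⟩
      by_cases hb0 : y * y * b = (0 : F)
      · rw [hb0, add_zero] at e
        rw [Units.ext (e.trans Units.val_one.symm)]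
        exact one_mem _
      obtain ⟨s, hs, e'⟩ := hOne ((y : F) * y * b)
        (O.mul_mem _ _ (O.mul_mem _ _ hy hy) hb) (by
          intro h1
          apply hy'
          have hb0' : b ≠ 0 := by rintro rfl; exact hb0 (by simp)
          have h2 : (y : F)⁻¹ = y * b * ((y : F) * y * b)⁻¹ := by
            have := y.ne_zero
            field_simp
          rw [h2]
          exact O.mul_mem _ _ (O.mul_mem _ _ hy hb) h1)
      rw [Units.ext (e.trans e'.symm)]
      exact hs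
    by_contra hne
    have h1 := hJ1 _ (le_sup_right (a := Gy O y hy hy')) (lt_of_le_of_ne hle hne)
    have h2 : (y : F) * y ∈ II O (Gy O y hy hy' ⊔ pwG F p) := by
      refine ⟨O.mul_mem _ _ hy hy, fun b hb => ?_⟩
      have hw : (y : F) * y * b ∈ O := O.mul_mem _ _ (O.mul_mem _ _ hy hy) hb
      have hw' : (y : F) * y * b = 0 ∨ ((y : F) * y * b)⁻¹ ∉ O := by
        by_cases h0 : (y : F) * y * b = 0
        · exact Or.inl h0
        · right
          intro h1
          apply hy'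
          have hb0 : b ≠ 0 := by rintro rfl; exact h0 (by simp)
          have h2 : (y : F)⁻¹ = y * b * ((y : F) * y * b)⁻¹ := by
            have := y.ne_zero
            field_simp
          rw [h2]
          exact O.mul_mem _ _ (O.mul_mem _ _ hy hb) h1
      obtain ⟨g, hg, -, -⟩ := unit_one_add hw hw'
      exact ⟨g, Subgroup.mem_sup_left ⟨b, hb, hg⟩, hg⟩
    exact (hJ.prime _ hy _ hy (h1 h2)).elim hyJ hyJ
  -- the element
  obtain ⟨v, hv, e⟩ := hOne (y : F) hy hy'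
  have htv : t * v⁻¹ ∈ Gy O y hy hy' ⊔ pwG F p := by
    rw [hG]
    exact mul_mem ht (inv_mem hv)
  obtain ⟨g, ⟨b, hb, eg⟩, d, ⟨c, rfl⟩, e2⟩ := Subgroup.mem_sup.1 htv
  have hyb : (y : F) * (b * v) ∈ O := O.mul_mem _ _ hy (O.mul_mem _ _ hb (by
    rw [e]; exact O.add_mem _ _ O.one_mem hy))
  have hyb' : (y : F) * (b * v) = 0 ∨ ((y : F) * (b * v))⁻¹ ∉ O := by
    by_cases h0 : (y : F) * (b * v) = 0
    · exact Or.inl h0
    · right
      intro h1
      apply hy'
      have h2 : (y : F)⁻¹ = b * v * ((y : F) * (b * v))⁻¹ := by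
        have h3 : b * (v : F) ≠ 0 := fun h => h0 (by rw [h, mul_zero])
        have := y.ne_zero
        have h4 : b ≠ 0 := left_ne_zero_of_mul h3
        have h5 := v.ne_zero
        field_simp
      rw [h2]
      exact O.mul_mem _ _ (O.mul_mem _ _ hb (by rw [e]; exact O.add_mem _ _ O.one_mem hy)) h1
  obtain ⟨s, hs, -, -⟩ := unit_one_add hyb hyb'
  have hsT : s ∈ T := by
    rcases hyb' with h0 | h0
    · rw [h0, add_zero] at hs
      rw [Units.ext (hs.trans Units.val_one.symm)]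
      exact one_mem _
    · obtain ⟨s', hs', e'⟩ := hOne _ hyb h0
      rw [Units.ext (hs.trans e'.symm)]
      exact hs'
  refine ⟨y * s, c⁻¹, ?_, ?_⟩
  · rw [← mul_assoc]
    exact mul_mem hxy hsT
  · have e3 : g * v = t * (c⁻¹) ^ p := by
      have h1 : g * c ^ p = t * v⁻¹ := e2
      have : t = g * c ^ p * v := by rw [h1, inv_mul_cancel_right]
      rw [this, inv_pow]
      rw [mul_assoc g, mul_comm (c ^ p) v, mul_assoc, mul_assoc, mul_inv_cancel, mul_one]
    have e4 := congrArg (fun a : Fˣ => (a : F)) e3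
    simp only [Units.val_mul, Units.val_pow_eq_pow_val] at e4
    rw [Units.val_mul, hs, ← e4, eg]
    linear_combination (-1 : F) * e

end Pool.Agent.P8H47.EC
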