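import Pool.Agent.P8H47.EC.Stm

/-! # Project EC: valuation rings from partitions of `F*/T` -/

set_option autoImplicit false

namespace Pool.Agent.P8H47.EC

open Pool.Agent.Y920.EP Pool.Agent.R675.TP
open Pool.Agent.Y920.ETC (PCD Compat)

theorem t_PT (hco : S_CO) : S_PT := by
  intro F _ p hp hp2 hζ T hT hidx hcyc P hP hsum
  have hpcd := Pool.Agent.Y98.EP.t_PCD
  have hwb := Pool.Agent.Y447.EP.t_WB'
  have hodd : Odd p := hp.odd_of_ne_two hp2
  obtain ⟨A, _, φ, hφ, hk⟩ := exists_quot F T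
  subst hk
  have hmem : ∀ u : Fˣ, u ∉ φ.ker ↔ φ u ≠ 1 := fun u => by rw [MonoidHom.mem_ker]
  have hpow : ∀ x : Fˣ, φ (x ^ p) = 1 := fun x => hT ⟨x, rfl⟩
  have hneg : φ (-1) = 1 := by
    have h1 := hpow (-1)
    rwa [hodd.neg_one_pow] at h1
  have hexp : ∀ a : A, a ^ p = 1 := by
    intro a
    obtain ⟨x, rfl⟩ := hφ a
    rw [← map_pow]
    exact hpow x
  have hodd' : ∀ a : A, a * a = 1 → a = 1 := by
    intro a ha
    obtain ⟨m, hm⟩ := hodd
    have h1 := hexp a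
    rw [hm, pow_succ, pow_mul, pow_two, ha, one_pow, one_mul] at h1
    exact h1
  have hTS := tsys_of_part hφ hP hneg
    (fun x v hx hv K hK hxK => hsum x v ((hmem x).2 hx) hv K hK hxK)
  have hne : ∃ a : Fˣ, φ a ≠ 1 := by
    by_contra hc
    push Not at hc
    obtain ⟨K, hK, -⟩ := hP.cover 1
    apply hP.ne_top K hK
    rw [eq_top_iff]
    intro x _
    exact hP.le K hK (MonoidHom.mem_ker.2 (hc x))
  have hfinA : Finite A := by
    have h1 : φ.ker.index ≠ 0 := by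
      intro h0
      apply hidx
      have h2 := Subgroup.relIndex_mul_index hT
      rw [h0, mul_zero] at h2
      exact h2.symm
    rw [Subgroup.index_ker] at h1
    have h2 : Finite φ.range := Nat.finite_of_card_ne_zero h1
    rw [MonoidHom.range_eq_top.2 hφ] at h2
    exact Finite.of_equiv _ (Subgroup.topEquiv (G := A)).toEquiv
  have hfin' : ∀ u : Fˣ, φ u ≠ 1 → (NnP hφ hP (φ u) : Set A).Finite := fun u _ => Set.toFinite _
  -- the block
  obtain ⟨b, hb1, hbad⟩ : ∃ b : Fˣ, φ b ≠ 1 ∧ ∀ y : Fˣ, Bd φ y → φ y ∈ NnP hφ hP (φ b) := by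
    by_cases h1 : ∃ y, Bd φ y
    · obtain ⟨y, hy⟩ := h1
      refine ⟨y, hy.1, fun z hz => ?_⟩
      by_contra hc
      exact no_two hTS hy hz hc hp.pos hexp hodd' (hfin' y hy.1)
    · obtain ⟨a, ha⟩ := hne
      exact ⟨a, ha, fun y hy => absurd ⟨y, hy⟩ h1⟩
  obtain ⟨K, hKdef⟩ : ∃ K : Subgroup A, K = NnP hφ hP (φ b) := ⟨_, rfl⟩
  have hNR : NR φ ⊆ (K : Set A) := by
    rintro a ⟨ha1, r, s, hr, hrs, hs1, hs2⟩
    have h1 : φ (-r) = a := by rw [phi_neg hTS.neg, hr]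
    have h2 : Bd φ (-r) := by
      rw [Bd.iff (s := s) (by rw [Units.val_neg]; linear_combination hrs), h1]
      exact ⟨ha1, hs1, hs2⟩
    have h3 := hbad _ h2
    rw [h1, ← hKdef] at h3
    exact h3
  have hRP : RP φ.ker (K.comap φ) := rp_of hTS.neg K hNR
  have hsq : ∀ x : Fˣ, x * x ∈ K.comap φ → x ∈ K.comap φ := by
    intro x hx
    rw [Subgroup.mem_comap] at hx ⊢
    obtain ⟨m, hm⟩ := hodd
    have : φ x = φ (x * x) ^ (m + 1) := by
      rw [map_mul, ← pow_two, ← pow_mul, show 2 * (m + 1) = p + 1 by omega, pow_succ, hexp,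
        one_mul]
    rw [this]
    exact pow_mem hx _
  have hPC := hpcd F φ.ker (K.comap φ) hRP hsq
  obtain ⟨O, hO⟩ := hwb F φ.ker (K.comap φ) hRP hPC
  have hKtop : K.comap φ ≠ ⊤ := by
    intro h0
    obtain ⟨K₀, hK₀, hbK₀⟩ := hP.cover b
    apply hP.ne_top K₀ hK₀
    rw [eq_top_iff]
    intro y _
    have h1 : y ∈ K.comap φ := by rw [h0]; trivial
    rw [Subgroup.mem_comap, hKdef, mem_NnP hφ hP hb1] at h1
    obtain ⟨K', hK', h2, h3⟩ := h1
    rwa [hP.eq_of hK₀ hK' ((hmem b).2 hb1) hbK₀ h2]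
  have hne' : O.unitGroup ⊔ φ.ker ≠ ⊤ := by
    intro h0
    apply hKtop
    rw [eq_top_iff, ← h0]
    refine sup_le ?_ hRP.le
    intro u hu
    refine hO.units u ?_ ?_
    · rw [← ValuationSubring.valuation_le_one_iff]
      exact le_of_eq hu
    · rw [← ValuationSubring.valuation_le_one_iff]
      exact le_of_eq (inv_mem hu : u⁻¹ ∈ O.unitGroup)
  have hrel : (pwG F p).relIndex φ.ker ≠ 0 := by
    intro h0
    apply hidx
    have h2 := Subgroup.relIndex_mul_index hT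
    rw [h0, zero_mul] at h2
    exact h2.symm
  rcases hco F p hp hp2 hζ φ.ker hT hrel O hO.one hne' with ⟨O', -, h⟩ | ⟨x, hx⟩
  · exact ⟨O', h⟩
  · exact absurd hx (hcyc x)

end Pool.Agent.P8H47.EC
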