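import Pool.Agent.P8H47.EC.A
import Pool.Agent.P8H47.EC.Pt
import Pool.Agent.Results.MP_600e55_nt.ManySymbols

/-! # Project EC: assembly -/

set_option autoImplicit false

open Module Submodule Function

namespace Pool.Agent.P8H47.EC

open Pool.Agent.Y920.EP
open Pool.Agent.R675.TP
open Pool.Agent.N908.FR (Forms Est IsSymbol sg mem_sg relIndex_sg card_symbols exists_form)
open Pool.Agent.Results.MP_600e55_nt.SymbolPartitions

section

variable {p : ℕ} [Fact p.Prime] {F : Type} [Field F]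

theorem p_ne (hζ : ∃ ζ : F, IsPrimitiveRoot ζ p) : (p : F) ≠ 0 := by
  obtain ⟨ζ, hζ⟩ := hζ
  have : NeZero p := ⟨(Fact.out : p.Prime).ne_zero⟩
  exact hζ.neZero'.ne

/-- the elements found by `A` are norms -/
theorem norm_of_A (hp2 : p ≠ 2) {t z c : Fˣ} (h : (1 : F) + z = t * c ^ p) :
    z ∈ normGroup p t := by
  have hp : p.Prime := Fact.out
  have hng := Pool.Agent.Y349.EP.t_NG p hp hp2 F
  have hodd : Odd p := hp.odd_of_ne_two hp2
  have h1 : -z ∈ nmG p (t * (-c) ^ p) := by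
    refine hng.2.1 (t * (-c) ^ p) (-z) ?_
    rw [Units.val_neg, Units.val_mul, Units.val_pow_eq_pow_val, Units.val_neg, hodd.neg_pow]
    linear_combination -h
  rw [hng.2.2] at h1
  have h2 : (-1 : Fˣ) ^ p ∈ nmG p t := hng.1 t (-1)
  rw [hodd.neg_one_pow] at h2
  have h3 := mul_mem h2 h1
  have e : (-1 : Fˣ) * -z = z := by simp
  rwa [e] at h3

/-- `t` is a norm from the field of its `p`-th root -/
theorem self_mem (hp2 : p ≠ 2) (hζ : ∃ ζ : F, IsPrimitiveRoot ζ p) {t : Fˣ}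
    (ht : t ∉ powers F p) : t ∈ normGroup p t := by
  have hp : p.Prime := Fact.out
  have hng := Pool.Agent.Y349.EP.t_NG
  have hsy := Pool.Agent.Y349.EP.t_SYMM
  obtain ⟨A, _, φ, hφ, hk⟩ := exists_quot F (pwG F p)
  have h1 := nn_self hφ hk hng hsy hp hp2 hζ (φ t)
  exact (mem_Nn hφ hk hng hp hp2 (fun e => ht (by
    change t ∈ pwG F p
    rw [← hk, MonoidHom.mem_ker]; exact e))).1 h1

/-- symbols and minimal compatible subgroups -/
theorem symbol_A (hp2 : p ≠ 2) (hζ : ∃ ζ : F, IsPrimitiveRoot ζ p) {T : Subgroup Fˣ}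
    (hfin : (pwG F p).relIndex T ≠ 0) (hT : MinCp p T) {c : Fˣ → Fˣ → ZMod p}
    (hc : IsSymbol p F c) (h0 : ∀ s ∈ T, ∀ t ∈ T, c s t = 0) (t : Fˣ) (ht : t ∈ T) (x : Fˣ) :
    c t x = 0 := by
  obtain ⟨z, d, hz, e⟩ := t_A F p Fact.out hp2 (p_ne hζ) T hfin hT t ht x
  have h1 : c z (t * d ^ p) = 0 := by
    refine hc.one_add hp2 z (t * d ^ p) ?_
    rw [Units.val_mul, Units.val_pow_eq_pow_val, e]
  rw [hc.mul_right, hc.of_mem_right (show d ^ p ∈ powers F p from ⟨d, rfl⟩), add_zero] at h1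
  have hanti : ∀ a b : Fˣ, c a b = - c b a := by
    intro a b
    have h2 := hc.self hp2 (a * b)
    rw [hc.mul_left, hc.mul_right, hc.mul_right, hc.self hp2 a, hc.self hp2 b, zero_add,
      add_zero] at h2
    exact eq_neg_of_add_eq_zero_left h2
  have h3 : c t z = 0 := by rw [hanti, h1, neg_zero]
  have h4 := h0 t ht (x⁻¹ * z) hz
  rw [hc.mul_right, hc.inv_right, h3, add_zero, neg_eq_zero] at h4
  exact h4

variable {V : Type} [AddCommGroup V] [Module (ZMod p) V] [FiniteDimensional (ZMod p) V]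

variable (p) in
/-- the subspace of a subgroup -/
def sp {q : Fˣ → V} (hq : ∀ a b, q (a * b) = q a + q b)
    (T : Subgroup Fˣ) : Submodule (ZMod p) V :=
  (AddSubgroup.map (AddMonoidHom.mk' (fun a : Additive Fˣ => q (Additive.toMul a))
    (fun _ _ => hq _ _)) (Subgroup.toAddSubgroup T)).toZModSubmodule p

theorem mem_sp {q : Fˣ → V} (hq : ∀ a b, q (a * b) = q a + q b)
    {T : Subgroup Fˣ} {x : V} : x ∈ sp p hq T ↔ ∃ t ∈ T, q t = x := by
  constructor
  · rintro ⟨t, ht, e⟩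
    exact ⟨Additive.toMul t, ht, e⟩
  · rintro ⟨t, ht, e⟩
    exact ⟨Additive.ofMul t, ht, e⟩

variable {q : Fˣ → V} (hq : ∀ a b, q (a * b) = q a + q b) (hs : Surjective q)
    (hk : ∀ a, q a = 0 ↔ a ∈ powers F p)

include hq hk in
theorem q_inv (t : Fˣ) : q t⁻¹ = - q t := by
  have hq1 : q 1 = 0 := (hk 1).2 (one_mem _)
  have := hq t t⁻¹
  rw [mul_inv_cancel, hq1] at this
  exact (neg_eq_of_add_eq_zero_right this.symm).symm

include hk in
theorem q_pow (t : Fˣ) : q (t ^ p) = 0 := (hk _).2 ⟨t, rfl⟩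

include hk in
theorem mem_sp_iff {T : Subgroup Fˣ} (hT : pwG F p ≤ T) {a : Fˣ} :
    q a ∈ sp p hq T ↔ a ∈ T := by
  rw [mem_sp]
  constructor
  · rintro ⟨t, ht, e⟩
    have h1 : q (a * t⁻¹) = 0 := by
      rw [hq, q_inv hq hk, e, add_neg_cancel]
    have h2 := mul_mem (hT ((hk _).1 h1)) ht
    rwa [inv_mul_cancel_right] at h2
  · intro h
    exact ⟨a, h, rfl⟩

include hk in
theorem sg_sp {T : Subgroup Fˣ} (hT : pwG F p ≤ T) : sg hq (sp p hq T) = T := by
  ext a
  rw [mem_sg, mem_sp_iff hq hk hT]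

include hs hk in
theorem finrank_sp {T : Subgroup Fˣ} (hT : pwG F p ≤ T) :
    (powers F p).relIndex T = p ^ finrank (ZMod p) (sp p hq T) := by
  rw [← relIndex_sg hq hs hk, sg_sp hq hk hT]

include hq hs hk in
theorem relIndex_ne {T : Subgroup Fˣ} (hT : pwG F p ≤ T) : (pwG F p).relIndex T ≠ 0 := by
  change (powers F p).relIndex T ≠ 0
  rw [finrank_sp hq hs hk hT]
  exact (pow_pos (Fact.out : p.Prime).pos _).ne'

include hs hk in
/-- the bound for the number of symbols -/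
theorem bound (lb : S_LB) (hp2 : p ≠ 2) (hζ : ∃ ζ : F, IsPrimitiveRoot ζ p) {T : Subgroup Fˣ}
    (hT : MinCp p T) :
    finrank (ZMod p) (Forms (ZMod p) (Est q)) ≤
      finrank (ZMod p) (sp p hq T) * (finrank (ZMod p) (sp p hq T) - 1) / 2 +
        (finrank (ZMod p) V - finrank (ZMod p) (sp p hq T)) *
          (finrank (ZMod p) V - finrank (ZMod p) (sp p hq T) - 1) / 2 := by
  apply lb
  rintro t' ht' x'
  obtain ⟨t, ht, rfl⟩ := (mem_sp hq).1 ht'
  obtain ⟨x, rfl⟩ := hs x'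
  obtain ⟨z, d, hz, e⟩ := t_A F p Fact.out hp2 (p_ne hζ) T (relIndex_ne hq hs hk hT.le) hT t ht x
  refine ⟨q (x⁻¹ * z), (mem_sp hq).2 ⟨_, hz, rfl⟩, z, t * d ^ p, ?_, ?_, ?_⟩
  · rw [Units.val_mul, Units.val_pow_eq_pow_val, e]
  · rw [← hq, mul_inv_cancel_left]
  · rw [hq, q_pow hk, add_zero]

include hs hk in
/-- existence of a compatible subgroup -/
theorem exist (co : S_CO) (lx : S_LX) (hp2 : p ≠ 2) (hζ : ∃ ζ : F, IsPrimitiveRoot ζ p)
    (hfin : (powers F p).index ≠ 0)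
    (h : (finrank (ZMod p) V - 2) * (finrank (ZMod p) V - 3) / 2 + 1 <
      finrank (ZMod p) (Forms (ZMod p) (Est q))) :
    ∃ T : Subgroup Fˣ, pwG F p ≤ T ∧ finrank (ZMod p) (sp p hq T) + 3 ≤ finrank (ZMod p) V ∧
      ∃ O : ValuationSubring F, Cp p T O := by
  obtain ⟨T, hT, P, h1, h2, h3, h4, h5⟩ := lx p V (Est q) h
  have hle : ∀ K : Submodule (ZMod p) V, pwG F p ≤ sg hq K := fun K a ha => by
    rw [mem_sg, (hk a).2 ha]
    exact zero_mem _
  have hspsg : ∀ K : Submodule (ZMod p) V, sp p hq (sg hq K) = K := by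
    intro K
    ext x
    rw [mem_sp]
    constructor
    · rintro ⟨t, ht, rfl⟩; exact ht
    · intro hx
      obtain ⟨a, rfl⟩ := hs x
      exact ⟨a, hx, rfl⟩
  refine ⟨sg hq T, hle T, by rw [hspsg]; exact hT, ?_⟩
  refine t_PT co F p Fact.out hp2 hζ (sg hq T) (hle T) hfin ?_ (sg hq '' P) ?_ ?_
  · intro x hx
    have hK : T ⊔ span (ZMod p) {q x} = ⊤ := by
      rw [eq_top_iff]
      rintro y -
      obtain ⟨a, rfl⟩ := hs y
      rw [← mem_sg hq]
      have h6 : Subgroup.zpowers x ⊔ sg hq T ≤ sg hq (T ⊔ span (ZMod p) {q x}) := by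
        refine sup_le ?_ ?_
        · rw [Subgroup.zpowers_le, mem_sg]
          exact mem_sup_right (mem_span_singleton_self _)
        · intro b hb
          rw [mem_sg] at hb ⊢
          exact mem_sup_left hb
      apply h6
      rw [hx]
      trivial
    have h7 := finrank_add_le_finrank_add_finrank T (span (ZMod p) {q x})
    rw [hK, finrank_top] at h7
    have h8 := finrank_span_le_card (R := ZMod p) ({q x} : Set V)
    rw [Set.toFinset_singleton, Finset.card_singleton] at h8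
    omega
  · refine ⟨?_, ?_, ?_, ?_⟩
    · rintro _ ⟨K, hK, rfl⟩ a ha
      rw [mem_sg] at ha ⊢
      exact h1 K hK ha
    · rintro _ ⟨K, hK, rfl⟩ h0
      refine h2 K hK (eq_top_iff.2 fun x _ => ?_)
      obtain ⟨a, rfl⟩ := hs x
      rw [← mem_sg hq, h0]
      exact Subgroup.mem_top _
    · intro a
      obtain ⟨K, hK, h⟩ := h3 (q a)
      exact ⟨_, ⟨K, hK, rfl⟩, h⟩
    · rintro _ ⟨K, hK, rfl⟩ _ ⟨K', hK', rfl⟩ hne
      have h6 := h4 K hK K' hK' (fun h => hne (by rw [h]))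
      ext a
      rw [Subgroup.mem_inf, mem_sg, mem_sg, mem_sg, ← h6, Submodule.mem_inf]
  · rintro x v hx hv _ ⟨K, hK, rfl⟩ hxK
    exact h5 K hK (q x) (q v) ⟨x, v, hv, rfl, rfl⟩ hx hxK

theorem numeric {k n : ℕ} (h2 : 2 ≤ k) (h3 : k + 3 ≤ n) :
    k * (k - 1) / 2 + (n - k) * (n - k - 1) / 2 ≤ (n - 2) * (n - 3) / 2 + 1 := by
  obtain ⟨a, rfl⟩ := Nat.exists_eq_add_of_le h2
  obtain ⟨b, rfl⟩ := Nat.exists_eq_add_of_le h3
  have e1 : (2 + a) * (2 + a - 1) / 2 = (a + 2).choose 2 := by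
    rw [Nat.choose_two_right, Nat.add_comm 2 a]
  have e2 : (2 + a + 3 + b - (2 + a)) * (2 + a + 3 + b - (2 + a) - 1) / 2 = (b + 3).choose 2 := by
    rw [Nat.choose_two_right]
    congr 2 <;> omega
  have e3 : (2 + a + 3 + b - 2) * (2 + a + 3 + b - 3) / 2 = (a + b + 3).choose 2 := by
    rw [Nat.choose_two_right]
    congr 2 <;> omega
  rw [e1, e2, e3]
  have key : ∀ m : ℕ, 2 * m.choose 2 + m = m * m := by
    intro m
    rw [Nat.choose_two_right]
    have h := Nat.even_mul_pred_self m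
    rw [Nat.mul_div_cancel' h.two_dvd]
    rcases m with _ | m
    · rfl
    · simp; ring
  have k1 := key (a + 2)
  have k2 := key (b + 3)
  have k3 := key (a + b + 3)
  nlinarith

include hs hk in
/-- a minimal compatible subgroup of order at most `p` -/
theorem small (co : S_CO) (lx : S_LX) (lb : S_LB) (hp2 : p ≠ 2)
    (hζ : ∃ ζ : F, IsPrimitiveRoot ζ p) (hfin : (powers F p).index ≠ 0)
    (h : (finrank (ZMod p) V - 2) * (finrank (ZMod p) V - 3) / 2 + 1 <
      finrank (ZMod p) (Forms (ZMod p) (Est q))) :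
    ∃ T : Subgroup Fˣ, MinCp p T ∧ finrank (ZMod p) (sp p hq T) ≤ 1 := by
  obtain ⟨T, hT, hT3, hO⟩ := exist hq hs hk co lx hp2 hζ hfin h
  have hfinS : {T' : Subgroup Fˣ | (pwG F p ≤ T' ∧ T' ≤ T) ∧ ∃ O : ValuationSubring F, Cp p T' O}.Finite :=
    (finite_between (relIndex_ne hq hs hk hT)).subset (fun T' h => h.1)
  obtain ⟨T', h1, hmin⟩ := hfinS.exists_minimal ⟨T, ⟨⟨hT, le_rfl⟩, hO⟩⟩
  obtain ⟨⟨h1, h2⟩, h3⟩ := h1
  have hM : MinCp p T' := by
    refine ⟨h1, h3, fun T'' h4 h5 h6 => ?_⟩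
    exact absurd (hmin ⟨⟨h4, h5.le.trans h2⟩, h6⟩ h5.le) (not_le_of_gt h5)
  refine ⟨T', hM, ?_⟩
  by_contra hc
  have hb := bound hq hs hk lb hp2 hζ hM
  have hle : finrank (ZMod p) (sp p hq T') ≤ finrank (ZMod p) (sp p hq T) := by
    apply finrank_mono
    intro x hx
    obtain ⟨t, ht, rfl⟩ := (mem_sp hq).1 hx
    exact (mem_sp hq).2 ⟨t, h2 ht, rfl⟩
  have hn := numeric (k := finrank (ZMod p) (sp p hq T')) (n := finrank (ZMod p) V) (by omega)
    (by omega)
  omega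

include hs hk in
/-- case of trivial `T` -/
theorem eq_powers {T : Subgroup Fˣ} (hT : pwG F p ≤ T) (h : finrank (ZMod p) (sp p hq T) = 0) :
    T = powers F p := by
  have h1 : sp p hq T = ⊥ := Submodule.finrank_eq_zero.1 h
  refine le_antisymm (fun a ha => ?_) hT
  have h2 : q a ∈ sp p hq T := (mem_sp hq).2 ⟨a, ha, rfl⟩
  rw [h1, Submodule.mem_bot] at h2
  exact (hk a).1 h2

include hs hk in
/-- case of a cyclic `T` -/
theorem eq_zpowers {T : Subgroup Fˣ} (hT : pwG F p ≤ T) (h : finrank (ZMod p) (sp p hq T) = 1) :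
    ∃ t : Fˣ, t ∉ powers F p ∧ T = Subgroup.zpowers t ⊔ powers F p := by
  obtain ⟨v, hv0, hv⟩ := finrank_eq_one_iff'.1 h
  obtain ⟨t, ht, htv⟩ := (mem_sp hq).1 v.2
  refine ⟨t, ?_, le_antisymm ?_ ?_⟩
  · intro ht'
    apply hv0
    apply Subtype.ext
    rw [← htv]
    exact (hk t).2 ht'
  · intro a ha
    obtain ⟨c, hc⟩ := hv ⟨q a, (mem_sp hq).2 ⟨a, ha, rfl⟩⟩
    have hc' : c • (v : V) = q a := congrArg Subtype.val hc
    have hpow : ∀ m : ℕ, q (t ^ m) = (m : ZMod p) • q t := by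
      intro m
      induction m with
      | zero => simp [(hk 1).2 (one_mem _)]
      | succ m ih => rw [pow_succ, hq, ih]; push_cast; rw [add_smul, one_smul]
    have h1 : q (a * (t ^ c.val)⁻¹) = 0 := by
      rw [hq, q_inv hq hk, hpow, ZMod.natCast_zmod_val, htv, hc', add_neg_cancel]
    have h2 : a = t ^ c.val * (a * (t ^ c.val)⁻¹) := by
      rw [mul_comm a, mul_inv_cancel_left]
    rw [h2]
    exact mul_mem (Subgroup.mem_sup_left (pow_mem (Subgroup.mem_zpowers t) _))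
      (Subgroup.mem_sup_right ((hk _).1 h1))
  · refine sup_le ?_ hT
    rw [Subgroup.zpowers_le]
    exact ht

omit [FiniteDimensional (ZMod p) V] [Module (ZMod p) V] in
/-- the conclusion of Q1 from a compatible valuation ring -/
theorem conclusion (hp2 : p ≠ 2) (hζ : ∃ ζ : F, IsPrimitiveRoot ζ p) (O : ValuationSubring F)
    (hO : IsCompatible p O) (K : IntermediateField F (AlgebraicClosure F))
    (hK : IsMaximalPExtension p K) :
    IsDecompositionGroup (⊤ : Subgroup (↥K ≃ₐ[F] ↥K)) ∧ ConclusionOfQ1 p K := by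
  have hp : p.Prime := Fact.out
  have hG : AllG := ⟨Pool.Agent.Y86.EP.t_KUM, Pool.Agent.Y279.EP.t_UP,
    Pool.Agent.Y925.EP.t_TOWER', Pool.Agent.Y419.EP.t_INERT', Pool.Agent.Y469.EP.t_MAX'⟩
  have hpF : (p : F) ≠ 0 := p_ne hζ
  obtain ⟨c, hc⟩ : ∃ c : Fˣ, c ∉ O.unitGroup ⊔ powers F p := by
    by_contra hc
    push Not at hc
    exact hO.ne_top (eq_top_iff.2 fun c _ => hc c)
  have hD : DecInert F K := decInert hG p hp hp2 F hζ O ⟨hO.inv_mem, hpF, hO.one_add⟩
    ⟨c, ?_⟩ K hK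
  · refine ⟨?_, efratP p F K hD⟩
    obtain ⟨Γ, hΓ, w, hw, σ, hσ, hσw⟩ := hD
    exact ⟨Γ, hΓ, w, fun τ => ⟨fun _ x => hw τ x, fun _ => trivial⟩, σ, trivial, hσ, hσw⟩
  · rintro f ⟨h6, h7⟩
    apply hc
    have h8 : c * f ^ p ∈ O.unitGroup := Pool.Agent.R675.TP.mem_unitGroup_of h6 h7
    have h9 : f ^ p ∈ powers F p := ⟨f, rfl⟩
    have h10 := mul_mem (show c * f ^ p ∈ O.unitGroup ⊔ powers F p from
      Subgroup.mem_sup_left h8)
      (inv_mem (show f ^ p ∈ O.unitGroup ⊔ powers F p from Subgroup.mem_sup_right h9))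
    rwa [mul_inv_cancel_right] at h10

theorem anti (hp2 : p ≠ 2) {c : Fˣ → Fˣ → ZMod p} (hc : IsSymbol p F c) (a b : Fˣ) :
    c a b = - c b a := by
  have h2 := hc.self hp2 (a * b)
  rw [hc.mul_left, hc.mul_right, hc.mul_right, hc.self hp2 a, hc.self hp2 b, zero_add,
    add_zero] at h2
  exact eq_neg_of_add_eq_zero_left h2

/-- symbols vanish on `⟨t⟩ F*^p` -/
theorem symbol_zpowers (hp2 : p ≠ 2) {c : Fˣ → Fˣ → ZMod p} (hc : IsSymbol p F c) (t : Fˣ) :
    ∀ r ∈ Subgroup.zpowers t ⊔ powers F p, ∀ s ∈ Subgroup.zpowers t ⊔ powers F p, c r s = 0 := by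
  -- the elements orthogonal to a given element form a subgroup
  let L : Fˣ → Subgroup Fˣ := fun s =>
    { carrier := {r | c r s = 0}
      mul_mem' := by
        intro a b ha hb
        change c (a * b) s = 0
        rw [hc.mul_left, show c a s = 0 from ha, show c b s = 0 from hb, add_zero]
      one_mem' := hc.one_left s
      inv_mem' := by
        intro a ha
        change c a⁻¹ s = 0
        rw [hc.inv_left, show c a s = 0 from ha, neg_zero] }
  have hL : ∀ r s, r ∈ L s ↔ c r s = 0 := fun r s => Iff.rfl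
  have h1 : ∀ r ∈ Subgroup.zpowers t ⊔ powers F p, c r t = 0 := by
    intro r hr
    have : Subgroup.zpowers t ⊔ powers F p ≤ L t := by
      refine sup_le ?_ fun a ha => hc.of_mem_left ha t
      rw [Subgroup.zpowers_le]
      exact hc.self hp2 t
    exact this hr
  intro r hr s hs
  have : Subgroup.zpowers t ⊔ powers F p ≤ L r := by
    refine sup_le ?_ fun a ha => hc.of_mem_left ha r
    rw [Subgroup.zpowers_le, hL, anti hp2 hc, h1 r hr, neg_zero]
  have h2 := this hs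
  rw [hL] at h2
  rw [anti hp2 hc, h2, neg_zero]

include hq hs hk in
/-- the main theorem for a given model of `F*/F*^p` -/
theorem core (co : S_CO) (lx : S_LX) (lb : S_LB) (hp2 : p ≠ 2)
    (hζ : ∃ ζ : F, IsPrimitiveRoot ζ p) (hfin : (powers F p).index ≠ 0)
    (h : (finrank (ZMod p) V - 2) * (finrank (ZMod p) V - 3) / 2 + 1 <
      finrank (ZMod p) (Forms (ZMod p) (Est q))) :
    ((∃ O : ValuationSubring F, IsCompatible p O) ∧
      ∀ K : IntermediateField F (AlgebraicClosure F), IsMaximalPExtension p K →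
        IsDecompositionGroup (⊤ : Subgroup (↥K ≃ₐ[F] ↥K)) ∧ ConclusionOfQ1 p K) ∨
    ∃ t : Fˣ, t ∉ powers F p ∧ normGroup p t = ⊤ ∧
      (∀ c : Fˣ → Fˣ → ZMod p, IsSymbol p F c → ∀ x, c t x = 0) ∧
      MinCp p (Subgroup.zpowers t ⊔ powers F p) := by
  obtain ⟨T, hT, hT1⟩ := small hq hs hk co lx lb hp2 hζ hfin h
  rcases Nat.le_one_iff_eq_zero_or_eq_one.1 hT1 with h0 | h1
  · left
    have e := eq_powers hq hs hk hT.le h0
    subst e
    obtain ⟨O, hO⟩ := hT.ex
    have hO' : IsCompatible p O := by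
      refine ⟨hO.inv_mem, fun x hx hx' => ?_, hO.ne_top⟩
      obtain ⟨t, ⟨y, hy⟩, e⟩ := hO.one_add x hx hx'
      refine ⟨y, ?_⟩
      rw [← e, ← hy]
      rfl
    exact ⟨⟨O, hO'⟩, fun K hK => conclusion hp2 hζ O hO' K hK⟩
  · right
    obtain ⟨t, ht, e⟩ := eq_zpowers hq hs hk hT.le h1
    subst e
    have htT : t ∈ Subgroup.zpowers t ⊔ powers F p :=
      Subgroup.mem_sup_left (Subgroup.mem_zpowers t)
    have hrel := relIndex_ne hq hs hk hT.le
    refine ⟨t, ht, ?_, ?_, hT⟩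
    · rw [eq_top_iff]
      intro x _
      obtain ⟨z, d, hz, e⟩ := t_A F p Fact.out hp2 (p_ne hζ) _ hrel hT t htT x
      have h2 := norm_of_A hp2 e
      have h3 : Subgroup.zpowers t ⊔ powers F p ≤ normGroup p t := by
        refine sup_le ?_ ?_
        · rw [Subgroup.zpowers_le]
          exact self_mem hp2 hζ ht
        · rintro _ ⟨y, rfl⟩
          exact (Pool.Agent.Y349.EP.t_NG p Fact.out hp2 F).1 t y
      have h4 := mul_mem h2 (inv_mem (h3 hz))
      rwa [mul_inv_rev, inv_inv, mul_inv_cancel_left] at h4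
    · intro c hc x
      exact symbol_A hp2 hζ hrel hT hc (symbol_zpowers hp2 hc t) t htT x

end

end Pool.Agent.P8H47.EC
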