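import Mathlib
import Pool.Agent.N908.FR.Fld

/-! # Project EC (MP_600e55_nt): minimal compatible subgroups split off (statements)

`p` is an odd prime, `F` a field with a primitive `p`-th root of unity, `F*/F*^p` finite, `T` a subgroup of `F*`
containing `F*^p`. A valuation ring `O` is compatible with `T` if `p ∈ O*`, `1 + m ⊆ T` and `O* T ≠ F*`.
-/

set_option autoImplicit false

open Module Submodule

namespace Pool.Agent.P8H47.EC

open Pool.Agent.Y920.EP (pwG)
open Pool.Agent.N908.FR (Forms)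
open Pool.Agent.R675.TP (IsPart)

/-- `p` is a unit of `O`, `1 + m ⊆ T`, and `O* T ≠ F*` -/
structure Cp {F : Type} [Field F] (p : ℕ) (T : Subgroup Fˣ) (O : ValuationSubring F) : Prop where
  inv_mem : (p : F)⁻¹ ∈ O
  one_add : ∀ x : F, x ∈ O → x⁻¹ ∉ O → ∃ t ∈ T, (t : F) = 1 + x
  ne_top : O.unitGroup ⊔ T ≠ ⊤

/-- `T ⊇ F*^p` is minimal with the property that there is a compatible valuation ring -/
structure MinCp {F : Type} [Field F] (p : ℕ) (T : Subgroup Fˣ) : Prop where
  le : pwG F p ≤ T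
  ex : ∃ O : ValuationSubring F, Cp p T O
  min : ∀ T' : Subgroup Fˣ, pwG F p ≤ T' → T' < T → ¬ ∃ O : ValuationSubring F, Cp p T' O

/-- CO (150 lines; model: `Pool/Agent/Y232/EP/Coarse.lean`, theorem `t_COARSE'`, the case `T = F*^p`): coarsening.

Proof. If `p⁻¹ ∈ O` take `O' = O`. Let `p ∈ m`. Let `O' = inv p O = {x | p^N x ∈ O for some N}`, a valuation ring
with `O ≤ O'`, `p⁻¹ ∈ O'`, and `m' ⊆ m`, so `1 + m' ⊆ T`. If `O'* T ≠ F*` we are done. So let `O'* T = F*`. We show that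
`F*/T` is generated by one element.
(KEY) If `0 < v(z) < v(p)` (that is `z ∈ m`, `p / z ∈ m`) and `1 + z = y^p` then `z ∈ O* F*^p`: `y ∈ O*`,
`(y - 1)^p = z + p (...)`, so `(y-1)^p / z ∈ O*`.
(1) There is `x ∉ O* T` with `0 < v(x) < v(p)`: if `p ∉ O* T` take `x = 1 - ζ` (`p` = unit times `(1-ζ)^(p-1)`, `p - 1 ≥ 2`;
`x ∈ O* T` would give `p ∈ O* T`). If `p ∈ O* T`: there is `y ∈ F*` outside `O* T`, `y = u t` with `u ∈ O'*`, `t ∈ T`, so
`u ∉ O* T`, wlog `u ∈ m`; divide `u` by `p` as long as the result is in `m` and of value `≥ v(p)` (`p^N / u ∈ O` for some `N`); the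
result is never in `O* T`.
(2) If `z, z' ∉ O* T` have `0 < v(z) < v(z') < v(p)`, the classes of `1 + z` and `1 + z'` modulo `F*^p` are different:
`(1 + z)/(1 + z') = 1 + z''` with `z'' / z ∈ O*`, use (KEY). All these classes are in `T/F*^p`, which is finite. So the `z ∉ O* T`
with `0 < v(z) < v(p)` have finitely many values; let `x` have the smallest value. Then every `c ∈ m` has `v(c) ≥ v(x)`:
otherwise `c ∈ O* T` by minimality and `x / c ∉ O* T` has a smaller positive value. So `m = x O`.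
(3) `p` divides a power of `x`: otherwise all `x^j`, `j` not divisible by `p`, are `∉ O* T` (`F*/O*T` has exponent `p`) of
different values `< v(p)`, contradiction to the finiteness. So each `u ∈ O'*` is in `<x> O*`.
(4) The residue field is finite, of order at most `[T : F*^p]`: if `u - u' ∉ m`, `u, u' ∈ O`, then `(1 + u x)/(1 + u' x) = 1 + z''`
with `z''/x ∈ O*`, not a `p`-th power by (KEY). So the residue field (characteristic `p`) is perfect, every unit `u` of `O` is
`c^p (1 + m)`, so `O* ⊆ T`. Hence `F* = O'* T = <x> T`. -/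
def S_CO : Prop := ∀ (F : Type) [Field F] (p : ℕ), p.Prime → p ≠ 2 → (∃ ζ : F, IsPrimitiveRoot ζ p) →
  ∀ T : Subgroup Fˣ, pwG F p ≤ T → (pwG F p).relIndex T ≠ 0 → ∀ O : ValuationSubring F,
    (∀ x : F, x ∈ O → x⁻¹ ∉ O → ∃ t ∈ T, (t : F) = 1 + x) → O.unitGroup ⊔ T ≠ ⊤ →
    (∃ O' : ValuationSubring F, O ≤ O' ∧ Cp p T O') ∨ ∃ x : Fˣ, Subgroup.zpowers x ⊔ T = ⊤

/-- PT (100 lines, from CO and the starting files; model: `val_of_part` in `R675/TP/Part.lean`) -/
def S_PT : Prop := ∀ (F : Type) [Field F] (p : ℕ), p.Prime → p ≠ 2 → (∃ ζ : F, IsPrimitiveRoot ζ p) →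
  ∀ T : Subgroup Fˣ, pwG F p ≤ T → (pwG F p).index ≠ 0 → (∀ x : Fˣ, Subgroup.zpowers x ⊔ T ≠ ⊤) →
    ∀ P : Set (Subgroup Fˣ), IsPart T P →
      (∀ x v : Fˣ, x ∉ T → (v : F) = 1 + x → ∀ K ∈ P, x ∈ K → v ∈ K) →
      ∃ O : ValuationSubring F, Cp p T O

/-- A (150 lines) -/
def S_A : Prop := ∀ (F : Type) [Field F] (p : ℕ), p.Prime → p ≠ 2 → (p : F) ≠ 0 →
  ∀ T : Subgroup Fˣ, (pwG F p).relIndex T ≠ 0 → MinCp p T →
    ∀ t ∈ T, ∀ x : Fˣ, ∃ z c : Fˣ, x⁻¹ * z ∈ T ∧ (1 : F) + z = t * c ^ p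

/-- LX (150 lines, linear algebra): existence of a partition. `Forms (ZMod p) E` are the alternating bilinear forms
vanishing on the pairs of `E`.

Proof. Put `S = Forms E`, for a subspace `T`: `S_T = {β ∈ S | β t x = 0 for t ∈ T, all x}` and `N_T(a) = {b | β a b = 0 for all
β ∈ S_T}` (a subspace containing `a` and `T`). (i) Let `dim T + 3 ≤ n` and suppose that `dim N_T(a) ≤ dim T + 2` for all `a ∉ T`.
Then `P = {N_T(a) | a ∉ T}` is as required: if `x ∈ N_T(a)`, `x ∉ T`, `a ∉ T` then `N_T(x) = N_T(a)` (if `x ∈ <a> + T` clear;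
otherwise `N_T(a) = <a, x> + T` by dimension, it is contained in `N_T(x)`, and the dimensions agree). (ii) Otherwise, for every `T`
with `dim T + 3 ≤ n` there is `a ∉ T` with `dim N_T(a) ≥ dim T + 3`. Then `dim S_T ≤ dim S_(T + <a>) + (n - dim T - 3)`: the linear
map `β ↦ β a` from `S_T` to the dual of `V` has the kernel `S_(T + <a>)` and its image kills `N_T(a)`. By induction on `m = n - dim T ≥
2` one gets `dim S_T ≤ (m - 2)(m - 3)/2 + 1`; for `m = 2` these are alternating forms on `V/T`, a space of dimension two. With `T = 0`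
this contradicts the hypothesis. (For `n ≤ 2` the hypothesis is never satisfied.) -/
def S_LX : Prop := ∀ (p : ℕ) [Fact p.Prime] (V : Type) [AddCommGroup V] [Module (ZMod p) V]
  [FiniteDimensional (ZMod p) V] (E : V → V → Prop),
    (finrank (ZMod p) V - 2) * (finrank (ZMod p) V - 3) / 2 + 1 < finrank (ZMod p) (Forms (ZMod p) E) →
    ∃ T : Submodule (ZMod p) V, finrank (ZMod p) T + 3 ≤ finrank (ZMod p) V ∧
      ∃ P : Set (Submodule (ZMod p) V), (∀ K ∈ P, T ≤ K) ∧ (∀ K ∈ P, K ≠ ⊤) ∧ (∀ x, ∃ K ∈ P, x ∈ K) ∧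
        (∀ K ∈ P, ∀ K' ∈ P, K ≠ K' → K ⊓ K' = T) ∧
        ∀ K ∈ P, ∀ x y : V, E x y → x ∉ T → x ∈ K → y ∈ K

/-- LB (120 lines, linear algebra): if for all `t ∈ T` and all `x` there is `t' ∈ T` with `E (x + t') t`, then a form in `Forms E`
which vanishes on `T × T` vanishes on `T × V`, so it is an alternating form on `V/T`; hence `dim Forms E ≤ k (k - 1) / 2 +
(n - k) (n - k - 1) / 2`, `k = dim T` (restriction to `T`; the alternating forms on a space of dimension `k` have dimension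
`≤ k (k - 1) / 2`). -/
def S_LB : Prop := ∀ (p : ℕ) [Fact p.Prime] (V : Type) [AddCommGroup V] [Module (ZMod p) V]
  [FiniteDimensional (ZMod p) V] (E : V → V → Prop) (T : Submodule (ZMod p) V),
    (∀ t ∈ T, ∀ x : V, ∃ t' ∈ T, E (x + t') t) →
    finrank (ZMod p) (Forms (ZMod p) E) ≤
      finrank (ZMod p) T * (finrank (ZMod p) T - 1) / 2 +
        (finrank (ZMod p) V - finrank (ZMod p) T) * (finrank (ZMod p) V - finrank (ZMod p) T - 1) / 2

end Pool.Agent.P8H47.EC
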